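import Pool.Agent.L0h32.UX.Stm
import Pool.Agent.L0h66.CX.UPP

/-!
# Project UX: the upper bound (module UPP; helper56)
-/

set_option autoImplicit false
set_option linter.all false

namespace Pool.Agent.L0h56.UX

open Relation
open Pool.Agent.L0h32.UX
open Pool.Agent.H630R2.LA (LimAut Sym Cfg Step init initTape WS lrel bitS ix nr Ann keep card_WS card_table)
open Pool.Agent.L0h66.CX (exists_nfa size_le_all size_pos')

theorem N_bound (H a n : ℕ) (hH : 1 ≤ H) (ha : a + 1 ≤ H) :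
    (H + 2 * H * (a + 1) + 1) + H * ((2 * H + 1) * (2 * (2 * H + 1) * (2 * H) * H ^ 3 + 2)) + 1 ≤
      64 * H ^ 7 := by
  have h1 : H ≤ H ^ 7 := Nat.le_self_pow (by norm_num) H
  have h2 : H ^ 2 ≤ H ^ 7 := Nat.pow_le_pow_right hH (by norm_num)
  have h3 : 1 ≤ H ^ 7 := Nat.one_le_pow _ _ hH
  have h5 : H ^ 5 ≤ H ^ 7 := Nat.pow_le_pow_right hH (by norm_num)
  have h6 : H ^ 6 ≤ H ^ 7 := Nat.pow_le_pow_right hH (by norm_num)
  have e1 : 2 * H * (a + 1) ≤ 2 * H ^ 2 := by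
    calc 2 * H * (a + 1) ≤ 2 * H * H := Nat.mul_le_mul_left _ ha
      _ = 2 * H ^ 2 := by ring
  have e2 : H * ((2 * H + 1) * (2 * (2 * H + 1) * (2 * H) * H ^ 3 + 2)) =
      16 * H ^ 7 + 16 * H ^ 6 + 4 * H ^ 5 + 4 * H ^ 2 + 2 * H := by ring
  rw [e2]
  omega

theorem t_UPP (hC : S_CARD) (hW : S_WGT) (hU : S_UNA) (hP : S_CMP) : S_UPP := by
  intro A hfA strict M n hn
  have := M.finQ
  obtain ⟨h4, hq, hq1⟩ := size_pos' M
  have hcard : Nat.card (Set (M.Q × M.Q) × M.Q) ≤ 2 ^ (n ^ 2) := by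
    rw [card_table]
    calc 2 ^ (Nat.card M.Q * Nat.card M.Q) * Nat.card M.Q
        ≤ 2 ^ (Nat.card M.Q * Nat.card M.Q) * 2 ^ (Nat.card M.Q) :=
          Nat.mul_le_mul_left _ (Nat.lt_two_pow_self).le
      _ = 2 ^ (Nat.card M.Q * Nat.card M.Q + Nat.card M.Q) := by rw [pow_add]
      _ ≤ 2 ^ (n ^ 2) := by
          apply Nat.pow_le_pow_right (by omega)
          nlinarith
  obtain ⟨h, hh⟩ : ∃ h, h = n ^ 2 := ⟨_, rfl⟩
  rw [← hh] at hcard
  obtain ⟨rel, p0, facc, hL⟩ := exists_nfa M strict hcard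
  obtain ⟨W, hWR, hWG⟩ := hW A h rel p0
  obtain ⟨N, hN⟩ : ∃ N, N = KB h (Nat.card A) + 2 ^ h * ((2 * 2 ^ h + 1) * (RB h + 2)) := ⟨_, rfl⟩
  obtain ⟨hQ, hQc⟩ := hC h N
  have hK0 : 0 < KB h (Nat.card A) := by unfold KB; omega
  have hun := hU A strict h rel p0 facc (KB h (Nat.card A)) W N hQ
  have hex := hP A strict h rel p0 facc (KB h (Nat.card A)) W (RB h) N hQ
  obtain ⟨M', hM'⟩ : ∃ M' : LimAut A, M' = uM h rel p0 facc (KB h (Nat.card A)) W N hQ := ⟨_, rfl⟩
  refine ⟨uM h rel p0 facc (KB h (Nat.card A)) W N hQ, uG h rel p0 facc (KB h (Nat.card A)) W N hQ,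
    ⟨?_, ?_⟩, ?_, ?_⟩
  · rw [Set.disjoint_left]
    intro q hq1 hq2
    have e1 : q.1 = .fin true := hq1
    have e2 : q.1 = .fin false := hq2
    rw [e1] at e2
    cases e2
  · intro w
    obtain ⟨c, hc1, hc2, hc3⟩ := hex w hWR hN.ge hWG
    obtain ⟨l, hl1, hl2⟩ := List.exists_isChain_cons_of_relationReflTransGen hc1
    have hrun : IsRun strict (uM h rel p0 facc (KB h (Nat.card A)) W N hQ)
        (uG h rel p0 facc (KB h (Nat.card A)) W N hQ) w (init _ w :: l) := by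
      refine ⟨rfl, hl1, c, ?_, hc2, ?_⟩
      · rw [List.getLast?_eq_getLast_of_ne_nil (List.cons_ne_nil _ _), hl2]
      · rcases hc3 with h5 | h5
        · exact Or.inl h5
        · exact Or.inr h5
    exact ⟨_, hrun, fun r' hr' => (hun w hK0).1 r' _ hr' hrun⟩
  · ext w
    rw [hL w]
    constructor
    · rintro ⟨c, hc1, hc2, hc3⟩
      exact ((hun w hK0).2 c hc1).1 hc3
    · intro hf
      obtain ⟨c, hc1, hc2, hc3⟩ := hex w hWR hN.ge hWG
      rcases hc3 with h5 | h5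
      · exact ⟨c, hc1, hc2, h5⟩
      · exact absurd hf (((hun w hK0).2 c hc1).2 h5)
  · have hs := size_le_all (uM h rel p0 facc (KB h (Nat.card A)) W N hQ) (card_WS A)
    have hQ' : Nat.card (uM h rel p0 facc (KB h (Nat.card A)) W N hQ).Q ≤
        2 ^ (h + 10) * (N + 1) ^ 16 := hQc
    have hG : (uG h rel p0 facc (KB h (Nat.card A)) W N hQ).ncard ≤
        Nat.card (uM h rel p0 facc (KB h (Nat.card A)) W N hQ).Q := by
      haveI : Finite (uM h rel p0 facc (KB h (Nat.card A)) W N hQ).Q := hQ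
      exact (Set.ncard_le_ncard (Set.subset_univ (uG h rel p0 facc (KB h (Nat.card A)) W N hQ))
        (Set.finite_univ (α := (uM h rel p0 facc (KB h (Nat.card A)) W N hQ).Q))).trans
        (Set.ncard_univ _).le
    generalize Nat.card (uM h rel p0 facc (KB h (Nat.card A)) W N hQ).Q = q at *
    generalize (uM h rel p0 facc (KB h (Nat.card A)) W N hQ).size = z at *
    generalize (uG h rel p0 facc (KB h (Nat.card A)) W N hQ).ncard = g at *
    have hn4 : 4 ≤ n := h4.trans hn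
    have hnh : n ≤ h := by rw [hh]; exact Nat.le_self_pow (by norm_num) n
    have hA : Nat.card A + 1 ≤ 2 ^ n := by
      calc Nat.card A + 1 ≤ n := by omega
        _ ≤ 2 ^ n := (Nat.lt_two_pow_self).le
    have hAh : Nat.card A + 1 ≤ 2 ^ h := hA.trans (Nat.pow_le_pow_right (by norm_num) hnh)
    have hN1 : N + 1 ≤ 2 ^ (7 * h + 6) := by
      have e1 := N_bound (2 ^ h) (Nat.card A) n (Nat.one_le_two_pow) hAh
      have e2 : 64 * (2 ^ h) ^ 7 = 2 ^ (7 * h + 6) := by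
        rw [← pow_mul, pow_add, mul_comm h 7]
        norm_num
        ring
      rw [e2] at e1
      rw [hN]
      exact e1
    have hq2 : q ≤ 2 ^ (113 * h + 106) := by
      calc q ≤ 2 ^ (h + 10) * (N + 1) ^ 16 := hQ'
        _ ≤ 2 ^ (h + 10) * (2 ^ (7 * h + 6)) ^ 16 := Nat.mul_le_mul_left _ (Nat.pow_le_pow_left hN1 16)
        _ = 2 ^ (113 * h + 106) := by
            rw [← pow_mul, ← pow_add]
            congr 1
            ring
    have hz : z ≤ 2 ^ (226 * h + 219 + 2 * n) := by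
      calc z ≤ 2 ^ 7 * (q ^ 2 * (Nat.card A + 1) ^ 2) := hs
        _ ≤ 2 ^ 7 * ((2 ^ (113 * h + 106)) ^ 2 * (2 ^ n) ^ 2) :=
            Nat.mul_le_mul_left _ (Nat.mul_le_mul (Nat.pow_le_pow_left hq2 2) (Nat.pow_le_pow_left hA 2))
        _ = 2 ^ (226 * h + 219 + 2 * n) := by
            rw [← pow_mul, ← pow_mul, ← pow_add, ← pow_add]
            congr 1
            ring
    have hg : g ≤ 2 ^ (226 * h + 219 + 2 * n) :=
      (hG.trans hq2).trans (Nat.pow_le_pow_right (by norm_num) (by omega))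
    calc z + g ≤ 2 ^ (226 * h + 219 + 2 * n) + 2 ^ (226 * h + 219 + 2 * n) := Nat.add_le_add hz hg
      _ = 2 ^ (226 * h + 219 + 2 * n + 1) := by rw [pow_succ]; ring
      _ ≤ 2 ^ (300 * n ^ 2) := by
          apply Nat.pow_le_pow_right (by norm_num)
          rw [hh]
          nlinarith

end Pool.Agent.L0h56.UX
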