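import Pool.Agent.L0h32.UX.Stm

/-!
# Project UX: the changes at home preserve the invariants (module HOP; helper56)
-/

set_option autoImplicit false
set_option linter.all false

namespace Pool.Agent.L0h56.UX

open Relation
open Pool.Agent.L0h32.UX
open Pool.Agent.H630R2.LA (LimAut Sym Cfg Step init initTape WS lrel bitS ix nr Ann keep)

section

variable {A : Type} {h : ℕ} {rel : A → Fin (2 ^ h) → Fin (2 ^ h) → Bool} {p0 : Fin (2 ^ h)}
  {facc : Fin (2 ^ h) → Bool} {K : ℕ} {W : ℕ → ℕ → Fin (2 ^ h) → Fin (2 ^ h) → ℕ}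

/-- reachability and paths -/
theorem pw_iff (w : List A) (β i : ℕ) : ∀ (j : ℕ) (p : Fin (2 ^ h)),
    (∃ v, Pw h rel p0 W w β i j p v) ↔ nr h rel p0 w (β + j) p := by
  intro j
  induction j with
  | zero =>
    intro p
    constructor
    · rintro ⟨v, hv, -⟩
      exact hv
    · intro hp
      exact ⟨0, hp, rfl⟩
  | succ j ih =>
    intro q
    constructor
    · rintro ⟨v, p, u, hu, ⟨a, ha, hr⟩, -⟩
      exact ⟨p, (ih p).mp ⟨u, hu⟩, a, ha, hr⟩
    · rintro ⟨p, hp, a, ha, hr⟩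
      obtain ⟨u, hu⟩ := (ih p).mpr hp
      exact ⟨_, p, u, hu, ⟨a, ha, hr⟩, rfl⟩

theorem ix_val {y : ℕ} (hy : y < 2 ^ h) : (ix h y).val = y := Nat.mod_eq_of_lt hy

theorem eq_ix {y : ℕ} (hy : y < 2 ^ h) {q : Fin (2 ^ h)} (hq : q.val = y) : q = ix h y :=
  Fin.ext (by rw [hq, ix_val hy])

open Classical in
theorem filter_succ (w : List A) (t y : ℕ) (hy : y < 2 ^ h) :
    (Finset.univ.filter fun q : Fin (2 ^ h) => q.val < y + 1 ∧ nr h rel p0 w t q) =
      (Finset.univ.filter fun q : Fin (2 ^ h) => q.val < y ∧ nr h rel p0 w t q) ∪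
        (if nr h rel p0 w t (ix h y) then {ix h y} else ∅) := by
  ext q
  rw [Finset.mem_union, Finset.mem_filter, Finset.mem_filter]
  constructor
  · rintro ⟨-, h1, h2⟩
    rcases Nat.lt_or_ge q.val y with h3 | h3
    · exact Or.inl ⟨Finset.mem_univ _, h3, h2⟩
    · have h4 := eq_ix hy (show q.val = y by omega)
      right
      rw [if_pos (h4 ▸ h2), Finset.mem_singleton]
      exact h4
  · rintro (⟨-, h1, h2⟩ | h1)
    · exact ⟨Finset.mem_univ _, by omega, h2⟩
    · by_cases h2 : nr h rel p0 w t (ix h y)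
      · rw [if_pos h2, Finset.mem_singleton] at h1
        rw [h1]
        exact ⟨Finset.mem_univ _, by rw [ix_val hy]; omega, h2⟩
      · rw [if_neg h2] at h1
        exact absurd h1 (Finset.notMem_empty q)

open Classical in
theorem disj_succ (w : List A) (t y : ℕ) (hy : y < 2 ^ h) :
    Disjoint (Finset.univ.filter fun q : Fin (2 ^ h) => q.val < y ∧ nr h rel p0 w t q)
        (if nr h rel p0 w t (ix h y) then {ix h y} else ∅) := by
  rw [Finset.disjoint_left]
  intro q h1 h2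
  rw [Finset.mem_filter] at h1
  by_cases h3 : nr h rel p0 w t (ix h y)
  · rw [if_pos h3, Finset.mem_singleton] at h2
    rw [h2, ix_val hy] at h1
    omega
  · rw [if_neg h3] at h2
    exact absurd h2 (Finset.notMem_empty q)

open Classical in
theorem cnL_succ (w : List A) (β l y : ℕ) (hy : y < 2 ^ h) :
    cnL h rel p0 w β l (y + 1) = cnL h rel p0 w β l y + (if nr h rel p0 w (β + l) (ix h y) then 1 else 0) := by
  unfold cnL
  rw [filter_succ w (β + l) y hy, Finset.card_union_of_disjoint (disj_succ w (β + l) y hy)]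
  congr 1
  split_ifs <;> simp

open Classical in
theorem smL_succ (w : List A) (β i l y : ℕ) (hy : y < 2 ^ h) :
    smL h rel p0 W w β i l (y + 1) = smL h rel p0 W w β i l y +
      (if nr h rel p0 w (β + l) (ix h y) then Dm h rel p0 W w β i l (ix h y) else 0) := by
  unfold smL
  rw [filter_succ w (β + l) y hy, Finset.sum_union (disj_succ w (β + l) y hy)]
  congr 1
  split_ifs <;> simp

theorem cnL_zero (w : List A) (β l : ℕ) : cnL h rel p0 w β l 0 = 0 := by
  unfold cnL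
  simp

theorem smL_zero (w : List A) (β i l : ℕ) : smL h rel p0 W w β i l 0 = 0 := by
  unfold smL
  simp

open Classical in
/-- all sources have been found, with minimal weights -/
theorem full_Z (w : List A) (β i l : ℕ) (Z : Finset (Fin (2 ^ h))) (g : Fin (2 ^ h) → ℕ)
    (h1 : ∀ q ∈ Z, Pw h rel p0 W w β i l q (g q)) (h2 : Z.card = cnL h rel p0 w β l (2 ^ h))
    (h3 : ∑ q ∈ Z, g q = smL h rel p0 W w β i l (2 ^ h)) :
    (∀ q, q ∈ Z ↔ nr h rel p0 w (β + l) q) ∧ ∀ q ∈ Z, g q = Dm h rel p0 W w β i l q := by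
  have hsub : Z ⊆ Finset.univ.filter fun q : Fin (2 ^ h) => q.val < 2 ^ h ∧ nr h rel p0 w (β + l) q := by
    intro q hq
    rw [Finset.mem_filter]
    exact ⟨Finset.mem_univ _, q.isLt, (pw_iff w β i l q).mp ⟨_, h1 q hq⟩⟩
  have hZ : Z = Finset.univ.filter fun q : Fin (2 ^ h) => q.val < 2 ^ h ∧ nr h rel p0 w (β + l) q :=
    Finset.eq_of_subset_of_card_le hsub (by rw [h2]; exact le_refl _)
  have hle : ∀ q ∈ Z, Dm h rel p0 W w β i l q ≤ g q := fun q hq => Nat.sInf_le (h1 q hq)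
  constructor
  · intro q
    rw [hZ, Finset.mem_filter]
    exact ⟨fun h4 => h4.2.2, fun h4 => ⟨Finset.mem_univ _, q.isLt, h4⟩⟩
  · have h4 : ∑ q ∈ Z, Dm h rel p0 W w β i l q = ∑ q ∈ Z, g q := by
      rw [h3]
      unfold smL
      rw [hZ]
    intro q hq
    exact ((Finset.sum_eq_sum_iff_of_le hle).mp h4 q hq).symm

theorem rec0_ok (g : Fin (2 ^ h) → ℕ) : RecOK h rec0 ∅ g := by
  refine ⟨?_, ?_, ?_⟩
  · simp [rec0]
  · intro _
    exact ⟨rfl, rfl⟩
  · intro h1
    exact absurd h1 (by simp [rec0])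

end

theorem t_HOP (hLAY : S_LAY) (hMV : S_MV0) : S_HOP := by
  intro A h rel p0 facc K W w t m m' hm hh
  classical
  cases hh with
  | no hl hy hz =>
    obtain ⟨c1, c2, c3, c4, c5, c6, c7, c8, c9, c10, c11, c12, c13, c14, c15, c16, c17⟩ := hm
    refine ⟨c1, c2, c3, c4, c5, c6, c7, c8, c9, c10, c11, c12, ?_, c14, ?_, ?_, c17⟩
    · show m.z + 1 ≤ 2 ^ h
      omega
    · rintro (h1 | h1)
      · have h1' : m.l = Ly h m := h1
        omega
      · have h1' : m.y = 2 ^ h := h1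
        omega
    · obtain ⟨Z, g, d1, d2, d3, d4⟩ := c16
      exact ⟨Z, g, fun q hq => ⟨Nat.lt_succ_of_lt (d1 q hq).1, (d1 q hq).2⟩, d2, d3, d4⟩
  | nexty hl hy hz hd he hmul =>
    obtain ⟨c1, c2, c3, c4, c5, c6, c7, c8, c9, c10, c11, c12, c13, c14, c15, c16, c17⟩ := hm
    obtain ⟨Z, g, d1, d2, d3, d4⟩ := c16
    obtain ⟨β, hβ⟩ : ∃ β, β = bt h t m := ⟨_, rfl⟩
    rw [← hβ] at c6 c7 c8 c10 c11 c12 d1 d4 c17
    obtain ⟨f1, f2⟩ := full_Z w β m.i m.l Z g (fun q hq => (d1 q hq).2) (by rw [← d2, hd, c6])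
      (by rw [← d3, he, c7])
    have hL := hLAY (Fin (2 ^ h)) (nr h rel p0 w β) (Ed h rel w β) (W m.i) m.l (ix h m.y) c8
    obtain ⟨L1, L2, L3, L4⟩ := hL
    have hreach : ∀ p, (∃ v, GPw (nr h rel p0 w β) (Ed h rel w β) (W m.i) m.l p v) ↔ p ∈ Z := fun p =>
      (pw_iff w β m.i m.l p).trans (f1 p).symm
    have hreach' : (∃ v, GPw (nr h rel p0 w β) (Ed h rel w β) (W m.i) (m.l + 1) (ix h m.y) v) ↔
        nr h rel p0 w (β + (m.l + 1)) (ix h m.y) := pw_iff w β m.i (m.l + 1) (ix h m.y)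
    obtain ⟨r1, r2, r3⟩ := d4
    have hhas : m.r.has = true ↔ nr h rel p0 w (β + (m.l + 1)) (ix h m.y) := by
      rw [r1, ← hreach', L1]
      constructor
      · rintro ⟨p, hp⟩
        rw [Finset.mem_filter] at hp
        exact ⟨p, (hreach p).mpr hp.1, hp.2⟩
      · rintro ⟨p, hp1, hp2⟩
        exact ⟨p, Finset.mem_filter.mpr ⟨(hreach p).mp hp1, hp2⟩⟩
    have hmn : m.r.has = true → m.r.mn = Dm h rel p0 W w β m.i (m.l + 1) (ix h m.y) := by
      intro h1
      obtain ⟨⟨q, hq, hq2⟩, r5, -⟩ := r3 h1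
      rw [Finset.mem_filter] at hq
      apply le_antisymm
      · obtain ⟨p, hp1, hp2, hp3⟩ := L3 (hreach'.mpr (hhas.mp h1))
        have hpZ := (hreach p).mp hp1
        have h2 : m.r.mn ≤ g p + W m.i m.l p (ix h m.y) := r5 p (Finset.mem_filter.mpr ⟨hpZ, hp2⟩)
        rw [f2 p hpZ] at h2
        exact h2.trans hp3.le
      · have h2 := L2 q ((hreach q).mpr hq.1) hq.2
        have h3 : g q + W m.i m.l q (ix h m.y) = m.r.mn := hq2
        rw [f2 q hq.1] at h3
        exact h2.trans h3.le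
    have huq : Uq h rel p0 W w β m.i (m.l + 1) (ix h m.y) := by
      refine L4.mpr ?_
      intro p p' hp1 hp2 hp3 hp1' hp2' hp3'
      have hpZ := (hreach p).mp hp1
      have hpZ' := (hreach p').mp hp1'
      have h1 : m.r.has = true := r1.mpr ⟨p, Finset.mem_filter.mpr ⟨hpZ, hp2⟩⟩
      obtain ⟨-, -, r6⟩ := r3 h1
      by_contra hne
      have h2 : m.r.mul = true := by
        refine r6.mpr ⟨p, Finset.mem_filter.mpr ⟨hpZ, hp2⟩, p', Finset.mem_filter.mpr ⟨hpZ', hp2'⟩, hne, ?_, ?_⟩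
        · show g p + W m.i m.l p (ix h m.y) = m.r.mn
          rw [hmn h1, f2 p hpZ]
          exact hp3
        · show g p' + W m.i m.l p' (ix h m.y) = m.r.mn
          rw [hmn h1, f2 p' hpZ']
          exact hp3'
      rw [hmul] at h2
      exact absurd h2 (by decide)
    refine ⟨c1, c2, c3, c4, c5, ?_, ?_, ?_, ?_, ?_, ?_, ?_, ?_, ?_, ?_, ?_, ?_⟩
    · show m.c = cnL h rel p0 w (bt h t m) m.l (2 ^ h)
      rw [← hβ]
      exact c6
    · show m.s = smL h rel p0 W w (bt h t m) m.i m.l (2 ^ h)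
      rw [← hβ]
      exact c7
    · show ∀ q, Uq h rel p0 W w (bt h t m) m.i m.l q
      rw [← hβ]
      exact c8
    · show m.y + 1 ≤ 2 ^ h
      omega
    · show m.cn + (if m.r.has = true then 1 else 0) = cnL h rel p0 w (bt h t m) (m.l + 1) (m.y + 1)
      rw [← hβ, cnL_succ w β (m.l + 1) m.y hy, ← c10]
      congr 1
      by_cases h1 : m.r.has = true
      · rw [if_pos h1, if_pos (hhas.mp h1)]
      · rw [if_neg h1, if_neg (fun h2 => h1 (hhas.mpr h2))]
    · show m.sn + (if m.r.has = true then m.r.mn else 0) = smL h rel p0 W w (bt h t m) m.i (m.l + 1) (m.y + 1)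
      rw [← hβ, smL_succ w β m.i (m.l + 1) m.y hy, ← c11]
      congr 1
      by_cases h1 : m.r.has = true
      · rw [if_pos h1, if_pos (hhas.mp h1), hmn h1]
      · rw [if_neg h1, if_neg (fun h2 => h1 (hhas.mpr h2))]
    · show ∀ q : Fin (2 ^ h), q.val < m.y + 1 → Uq h rel p0 W w (bt h t m) m.i (m.l + 1) q
      rw [← hβ]
      intro q hq
      rcases Nat.lt_or_ge q.val m.y with h1 | h1
      · exact c12 q h1
      · have h2 := eq_ix hy (show q.val = m.y by omega)
        rw [h2]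
        exact huq
    · exact Nat.zero_le _
    · intro h1
      have h1' : m.l = Ly h m := h1
      omega
    · intro _
      rfl
    · refine ⟨∅, fun _ => 0, fun q hq => absurd hq (Finset.notMem_empty q), rfl, rfl, ?_⟩
      rw [Finset.filter_empty]
      exact rec0_ok _
    · show (m.f || (decide (m.l + 1 = Ly h m) && m.r.has && tst h facc m.x m.fin (ix h m.y))) = true ↔
        (m.l = Ly h m ∧ ∃ q, nr h rel p0 w (bt h t m + Ly h m) q ∧ tst h facc m.x m.fin q = true) ∨
        (m.l + 1 = Ly h m ∧ ∃ q : Fin (2 ^ h), q.val < m.y + 1 ∧ nr h rel p0 w (bt h t m + Ly h m) q ∧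
          tst h facc m.x m.fin q = true)
      rw [← hβ, Bool.or_eq_true, Bool.and_eq_true, Bool.and_eq_true, decide_eq_true_eq, c17]
      constructor
      · rintro ((h1 | ⟨h1, q, h2, h3⟩) | ⟨⟨h1, h2⟩, h3⟩)
        · exact Or.inl h1
        · exact Or.inr ⟨h1, q, by omega, h3⟩
        · refine Or.inr ⟨h1, ix h m.y, by rw [ix_val hy]; omega, ?_, h3⟩
          rw [← h1]
          exact hhas.mp h2
      · rintro (h1 | ⟨h1, q, h2, h3, h4⟩)
        · exact Or.inl (Or.inl h1)
        · rcases Nat.lt_or_ge q.val m.y with h5 | h5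
          · exact Or.inl (Or.inr ⟨h1, q, h5, h3, h4⟩)
          · have h6 := eq_ix hy (show q.val = m.y by omega)
            rw [h6] at h3 h4
            refine Or.inr ⟨⟨h1, hhas.mpr ?_⟩, h4⟩
            rw [h1]
            exact h3
  | bad hl hy hz hd he hmul hi =>
    exact hMV A h rel p0 facc K W w t (m.i + 1) m.x m.fin hi hm.1 hm.2.1 hm.2.2.1
  | layer hl hy =>
    obtain ⟨c1, c2, c3, c4, c5, c6, c7, c8, c9, c10, c11, c12, c13, c14, c15, c16, c17⟩ := hm
    have hz : m.z = 0 := c15 (Or.inr hy)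
    obtain ⟨Z, g, d1, d2, d3, d4⟩ := c16
    have hZ : Z = ∅ := by
      rw [Finset.eq_empty_iff_forall_notMem]
      intro q hq
      have := (d1 q hq).1
      omega
    subst hZ
    rw [Finset.filter_empty] at d4
    rw [Finset.card_empty] at d2
    rw [Finset.sum_empty] at d3
    refine ⟨c1, c2, c3, c4, ?_, ?_, ?_, ?_, ?_, ?_, ?_, ?_, ?_, ?_, ?_, ?_, ?_⟩
    · show m.l + 1 ≤ Ly h m
      omega
    · show m.cn = cnL h rel p0 w (bt h t m) (m.l + 1) (2 ^ h)
      rw [c10, hy]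
    · show m.sn = smL h rel p0 W w (bt h t m) m.i (m.l + 1) (2 ^ h)
      rw [c11, hy]
    · show ∀ q, Uq h rel p0 W w (bt h t m) m.i (m.l + 1) q
      intro q
      exact c12 q (by rw [hy]; exact q.isLt)
    · exact Nat.zero_le _
    · show 0 = cnL h rel p0 w (bt h t m) (m.l + 1 + 1) 0
      rw [cnL_zero]
    · show 0 = smL h rel p0 W w (bt h t m) m.i (m.l + 1 + 1) 0
      rw [smL_zero]
    · intro q hq
      exact absurd hq (Nat.not_lt_zero _)
    · show m.z ≤ 2 ^ h
      omega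
    · intro _
      rfl
    · intro _
      exact hz
    · refine ⟨∅, fun _ => 0, fun q hq => absurd hq (Finset.notMem_empty q), d2, d3, ?_⟩
      rw [Finset.filter_empty]
      obtain ⟨r1, r2, r3⟩ := d4
      refine ⟨r1, r2, fun h1 => ?_⟩
      have := r1.mp h1
      exact absurd this Finset.not_nonempty_empty
    · show m.f = true ↔
        (m.l + 1 = Ly h m ∧ ∃ q, nr h rel p0 w (bt h t m + Ly h m) q ∧ tst h facc m.x m.fin q = true) ∨
        (m.l + 1 + 1 = Ly h m ∧ ∃ q : Fin (2 ^ h), q.val < 0 ∧ nr h rel p0 w (bt h t m + Ly h m) q ∧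
          tst h facc m.x m.fin q = true)
      rw [c17]
      constructor
      · rintro (⟨h1, -⟩ | ⟨h1, q, -, h3, h4⟩)
        · omega
        · exact Or.inl ⟨h1, q, h3, h4⟩
      · rintro (⟨h1, q, h3, h4⟩ | ⟨-, q, h2, -⟩)
        · exact Or.inr ⟨h1, q, by rw [hy]; exact q.isLt, h3, h4⟩
        · exact absurd h2 (Nat.not_lt_zero _)

end Pool.Agent.L0h56.UX
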